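import Mathlib
import Pool.Agent.TH949.TX.EDefs
import Pool.Agent.TH949.TX.SDefs

/-!
# Prime powers in the summatory function, parameters at most 1 (job 4039)
-/

set_option autoImplicit false

open Complex MeasureTheory Set Filter Topology

namespace Pool.Agent.TH169.TX

open Pool.Agent.TH949.TX

open Classical in
private noncomputable def gg {n : ℕ} (α : ℕ → Fin n → ℂ) (u : ℝ) (p k : ℕ) : ℝ :=
  if ((k : ℝ) + 1) * Real.log (p : ℝ) ≤ u then -((∑ i, α p i ^ (k + 1)).re / ((k : ℝ) + 1)) else 0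

private theorem gg_abs {n : ℕ} {α : ℕ → Fin n → ℂ} {p : ℕ} (h : ∀ i, ‖α p i‖ ≤ 1) (u : ℝ) (k : ℕ) :
    |gg α u p k| ≤ n := by
  unfold gg
  split_ifs
  · rw [abs_neg, abs_div]
    have hk : (1 : ℝ) ≤ |(k : ℝ) + 1| := by
      rw [abs_of_nonneg (by positivity)]
      have : (0 : ℝ) ≤ k := Nat.cast_nonneg k
      linarith
    have h1 : |(∑ i, α p i ^ (k + 1)).re| ≤ n := by
      refine (Complex.abs_re_le_norm _).trans ((norm_sum_le _ _).trans ?_)
      calc ∑ i, ‖α p i ^ (k + 1)‖ ≤ ∑ _i : Fin n, (1 : ℝ) := by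
            apply Finset.sum_le_sum
            intro i _
            rw [norm_pow]
            exact pow_le_one₀ (norm_nonneg _) (h i)
        _ = n := by simp
    exact (div_le_self (abs_nonneg _) hk).trans h1
  · simp

open Classical in
theorem t_pow1 {T : Set ℕ} (hT : ∀ p ∈ T, p.Prime) {n : ℕ} {α : ℕ → Fin n → ℂ}
    (hα : ∀ p ∈ T, ∀ i, ‖α p i‖ ≤ 1) :
    ∃ C : ℝ, 0 ≤ C ∧ ∀ u : ℝ, 0 ≤ u →
      |AA (dP (T := T) α) LP u + ∑ p ∈ (Finset.range (⌊Real.exp u⌋₊ + 1)).filter (fun p => p ∈ T),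
        (∑ i, α p i).re| ≤ C * (1 + u) * Real.exp (u / 2) := by
  refine ⟨4 * n, by positivity, fun u hu => ?_⟩
  obtain ⟨N, hN⟩ : ∃ N : ℕ, N = ⌊Real.exp u⌋₊ := ⟨_, rfl⟩
  obtain ⟨M, hM⟩ : ∃ M : ℕ, M = ⌊Real.exp (u / 2)⌋₊ := ⟨_, rfl⟩
  obtain ⟨K, hK⟩ : ∃ K : ℕ, K = ⌊u / Real.log 2⌋₊ := ⟨_, rfl⟩
  have hl2 : 0 < Real.log 2 := Real.log_pos (by norm_num)
  rw [← hN]
  -- the conditions
  have hcond : ∀ p : ℕ, p.Prime → ∀ k : ℕ, ((k : ℝ) + 1) * Real.log (p : ℝ) ≤ u →
      p ≤ N ∧ k + 1 ≤ K := by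
    intro p hp k h
    have hp2 : (2 : ℝ) ≤ p := by exact_mod_cast hp.two_le
    have hlp : Real.log 2 ≤ Real.log p := Real.log_le_log (by norm_num) hp2
    have hk0 : (0 : ℝ) ≤ k := Nat.cast_nonneg k
    constructor
    · rw [hN]
      apply Nat.le_floor
      rw [← Real.log_le_iff_le_exp (by linarith)]
      nlinarith
    · rw [hK]
      apply Nat.le_floor
      rw [le_div_iff₀ hl2]
      push_cast
      nlinarith
  have hcond2 : ∀ p : ℕ, p.Prime → ∀ k : ℕ, (((k + 1 : ℕ) : ℝ) + 1) * Real.log (p : ℝ) ≤ u →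
      p ≤ M := by
    intro p hp k h
    have hp2 : (2 : ℝ) ≤ p := by exact_mod_cast hp.two_le
    have hlp : 0 ≤ Real.log p := Real.log_nonneg (by linarith)
    have hk0 : (0 : ℝ) ≤ k := Nat.cast_nonneg k
    rw [hM]
    apply Nat.le_floor
    rw [← Real.log_le_iff_le_exp (by linarith)]
    push_cast at h
    nlinarith
  -- the sum is finite
  have h1 : AA (dP (T := T) α) LP u = ∑ p ∈ (Finset.range (N + 1)).filter (fun p => p ∈ T),
      ∑ k ∈ Finset.range (K + 1), gg α u p k := by
    unfold AA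
    have e1 : (fun x : T × ℕ => if LP x ≤ u then dP (T := T) α x else 0) =
        fun x : T × ℕ => gg α u (x.1 : ℕ) x.2 := by
      funext x
      unfold LP dP gg
      rfl
    rw [e1, tsum_eq_sum (s := ((Finset.range (N + 1)).subtype (fun p => p ∈ T)) ×ˢ
      Finset.range (K + 1)), Finset.sum_product]
    · exact Finset.sum_subtype_eq_sum_filter (s := Finset.range (N + 1)) (p := fun p => p ∈ T)
        (fun p : ℕ => ∑ k ∈ Finset.range (K + 1), gg α u p k)
    · rintro ⟨⟨p, hp⟩, k⟩ hx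
      unfold gg
      rw [if_neg]
      intro h
      apply hx
      have := hcond p (hT p hp) k h
      simp only [Finset.mem_product, Finset.mem_subtype, Finset.mem_range]
      omega
  rw [h1, ← Finset.sum_add_distrib]
  have h2 : ∀ p ∈ (Finset.range (N + 1)).filter (fun p => p ∈ T),
      |∑ k ∈ Finset.range (K + 1), gg α u p k + (∑ i, α p i).re| ≤
        if p ≤ M then (K : ℝ) * n else 0 := by
    intro p hp
    rw [Finset.mem_filter, Finset.mem_range] at hp
    have hpp := hT p hp.2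
    have hp2 : (2 : ℝ) ≤ p := by exact_mod_cast hpp.two_le
    rw [Finset.sum_range_succ']
    have e0 : gg α u p 0 = -(∑ i, α p i).re := by
      unfold gg
      rw [if_pos]
      · simp
      · rw [Nat.cast_zero, zero_add, one_mul, Real.log_le_iff_le_exp (by linarith)]
        have h3 : (p : ℝ) ≤ N := by exact_mod_cast (by omega : p ≤ N)
        refine h3.trans ?_
        rw [hN]
        exact Nat.floor_le (Real.exp_pos _).le
    rw [e0, add_assoc, neg_add_cancel, add_zero]
    split_ifs with hpM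
    · refine (Finset.abs_sum_le_sum_abs _ _).trans ?_
      calc ∑ k ∈ Finset.range K, |gg α u p (k + 1)| ≤ ∑ _k ∈ Finset.range K, (n : ℝ) :=
            Finset.sum_le_sum fun k _ => gg_abs (hα p hp.2) u (k + 1)
        _ = (K : ℝ) * n := by simp
    · rw [Finset.sum_eq_zero, abs_zero]
      intro k _
      unfold gg
      rw [if_neg]
      intro h
      exact hpM (hcond2 p hpp k h)
  refine (Finset.abs_sum_le_sum_abs _ _).trans ((Finset.sum_le_sum h2).trans ?_)
  rw [← Finset.sum_filter]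
  have h3 : ((((Finset.range (N + 1)).filter (fun p => p ∈ T)).filter (fun p => p ≤ M)).card : ℝ) ≤
      M + 1 := by
    have : (((Finset.range (N + 1)).filter (fun p => p ∈ T)).filter (fun p => p ≤ M)) ⊆
        Finset.range (M + 1) := by
      intro p hp
      rw [Finset.mem_filter] at hp
      rw [Finset.mem_range]
      omega
    have h4 := Finset.card_le_card this
    rw [Finset.card_range] at h4
    exact_mod_cast h4
  rw [Finset.sum_const, nsmul_eq_mul]
  have hKu : (K : ℝ) ≤ 2 * u := by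
    have h5 : (K : ℝ) ≤ u / Real.log 2 := by
      rw [hK]
      exact Nat.floor_le (by positivity)
    refine h5.trans ?_
    rw [div_le_iff₀ hl2]
    have := Real.log_two_gt_d9
    nlinarith
  have hMu : (M : ℝ) + 1 ≤ 2 * Real.exp (u / 2) := by
    have h5 : (M : ℝ) ≤ Real.exp (u / 2) := by
      rw [hM]
      exact Nat.floor_le (Real.exp_pos _).le
    have h6 : 1 ≤ Real.exp (u / 2) := Real.one_le_exp (by linarith)
    linarith
  calc _ ≤ ((M : ℝ) + 1) * ((K : ℝ) * n) := mul_le_mul_of_nonneg_right h3 (by positivity)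
    _ ≤ (2 * Real.exp (u / 2)) * (2 * u * n) :=
        mul_le_mul hMu (mul_le_mul_of_nonneg_right hKu (by positivity)) (by positivity)
          (by positivity)
    _ = 4 * n * u * Real.exp (u / 2) := by ring
    _ ≤ 4 * n * (1 + u) * Real.exp (u / 2) := by
        apply mul_le_mul_of_nonneg_right _ (Real.exp_pos _).le
        apply mul_le_mul_of_nonneg_left _ (by positivity)
        linarith

end Pool.Agent.TH169.TX
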